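import Mathlib

open Finset Polynomial

namespace Pool.Agent.Results.MP_dac99f_nt.Fails

noncomputable def q : RatFunc ℚ := RatFunc.X

noncomputable def poch (a b : RatFunc ℚ) (k : ℕ) : RatFunc ℚ := ∏ j ∈ range k, (1 - a * b ^ j)

noncomputable def br (N : ℕ) : RatFunc ℚ := ∑ i ∈ range N, q ^ i

noncomputable def S (m n : ℕ) : RatFunc ℚ :=
  ∑ k ∈ range (m * n), (-1) ^ k * br (4 * k + 1) * q ^ (k ^ 2) *
    (poch q (q ^ 2) k ^ 3 / poch (q ^ 2) (q ^ 2) k ^ 3)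

def c (m : ℕ) : ℚ :=
  ∑ k ∈ range m, (-1) ^ k * (4 * k + 1) * ((∏ i ∈ range k, (1 / 2 + i : ℚ)) ^ 3 / (k.factorial : ℚ) ^ 3)

def Cg (A B : RatFunc ℚ) (P : ℚ[X]) : Prop :=
  ∃ U V : ℚ[X], IsCoprime V P ∧ P ∣ U ∧
    A - B = algebraMap ℚ[X] (RatFunc ℚ) U / algebraMap ℚ[X] (RatFunc ℚ) V

theorem result : ¬ ∀ m n : ℕ, 1 ≤ m → 1 ≤ n → Odd n →
    Cg (S m n) ((-1) ^ ((n - 1) / 2) * q ^ ((n - 1) ^ 2 / 4) * br n * RatFunc.C (c m))
      (cyclotomic n ℚ ^ 2) := by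
  intro h
  obtain ⟨U, V, hc, hU, hA⟩ := h 2 1 (by norm_num) le_rfl (by decide)
  rw [cyclotomic_one] at hc hU
  have hV0 : V ≠ 0 := by
    rintro rfl
    have := natDegree_eq_zero_of_isUnit (isCoprime_zero_left.1 hc)
    rw [natDegree_pow, ← C_1, natDegree_X_sub_C] at this
    simp at this
  have hV : algebraMap ℚ[X] (RatFunc ℚ) V ≠ 0 := by
    simpa using hV0
  have hc2 : c 2 = 3 / 8 := by
    simp [c, sum_range_succ]; norm_num
  have e1 : (1 - q : RatFunc ℚ) ≠ 0 := by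
    have : (1 - q : RatFunc ℚ) = algebraMap ℚ[X] (RatFunc ℚ) (1 - X) := by simp [q]
    rw [this]
    apply RatFunc.algebraMap_ne_zero
    intro h0
    have := congrArg (eval 0) h0
    simp at this
  have e2 : (1 + q : RatFunc ℚ) ≠ 0 := by
    have : (1 + q : RatFunc ℚ) = algebraMap ℚ[X] (RatFunc ℚ) (1 + X) := by simp [q]
    rw [this]
    apply RatFunc.algebraMap_ne_zero
    intro h0
    have := congrArg (eval 0) h0
    simp at this
  have e3 : (1 - q ^ 2 : RatFunc ℚ) = (1 - q) * (1 + q) := by ring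
  have hS : S 2 1 = 1 - (1 + q + q ^ 2 + q ^ 3 + q ^ 4) * q / (1 + q) ^ 3 := by
    simp only [S, br, poch, sum_range_succ, prod_range_succ, range_zero, sum_empty, prod_empty]
    simp only [pow_zero, mul_one, e3]
    field_simp
    ring
  have key : (5 * (1 + X) ^ 3 - 8 * ((1 + X + X ^ 2 + X ^ 3 + X ^ 4) * X)) * V
      = 8 * (1 + X) ^ 3 * U := by
    apply IsFractionRing.injective ℚ[X] (RatFunc ℚ)
    rw [hS, hc2, eq_div_iff hV] at hA
    simp only [br, sum_range_succ, range_zero, sum_empty] at hA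
    simp only [map_mul, map_sub, map_add, map_pow, map_one, map_ofNat, RatFunc.algebraMap_X]
    rw [← hA]
    change (5 * (1 + q) ^ 3 - 8 * ((1 + q + q ^ 2 + q ^ 3 + q ^ 4) * q)) * _ = 8 * (1 + q) ^ 3 * _
    norm_num
    field_simp
    ring
  have hd : ((X : ℚ[X]) - 1) ^ 2 ∣
      (5 * (1 + X) ^ 3 - 8 * ((1 + X + X ^ 2 + X ^ 3 + X ^ 4) * X)) := by
    apply hc.symm.dvd_of_dvd_mul_right
    rw [key]
    exact Dvd.dvd.mul_left hU _
  obtain ⟨W, hW⟩ := hd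
  have := congrArg (fun f => eval 1 (derivative f)) hW
  simp [derivative_pow] at this
  norm_num at this

end Pool.Agent.Results.MP_dac99f_nt.Fails
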